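import Mathlib

set_option autoImplicit false

open ContinuousLinearMap InnerProductSpace

namespace H109R

variable {H : Type*} [NormedAddCommGroup H] [InnerProductSpace ℂ H] [CompleteSpace H]
variable {K : Type*} [NormedAddCommGroup K] [InnerProductSpace ℂ K] [CompleteSpace K]

/-- The projection onto a closed subspace invariant under `S` and its adjoint commutes with `S`. -/
theorem proj_comm (S : H →L[ℂ] H) (M : Submodule ℂ H) [M.HasOrthogonalProjection]
    (h1 : ∀ x ∈ M, S x ∈ M) (h2 : ∀ x ∈ M, adjoint S x ∈ M) (x : H) :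
    S (M.starProjection x) = M.starProjection (S x) := by
  have e : x = M.starProjection x + (x - M.starProjection x) := by abel
  have h3 : S (M.starProjection x) ∈ M := h1 _ (M.starProjection_apply_mem x)
  have h4 : S (x - M.starProjection x) ∈ Mᗮ := by
    rw [Submodule.mem_orthogonal]
    intro u hu
    rw [← adjoint_inner_left]
    exact (Submodule.mem_orthogonal M _).1 (M.sub_starProjection_mem_orthogonal x) _ (h2 u hu)
  have h5 : M.starProjection (S x) = S (M.starProjection x) := by
    conv_lhs => rw [e]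
    rw [map_add, map_add, (Submodule.starProjection_eq_self_iff).2 h3,
      (Submodule.starProjection_apply_eq_zero_iff M).2 h4, add_zero]
  rw [h5]

omit [CompleteSpace K] in
/-- Transport of a projection of the bicommutant of `N` to `H`. -/
theorem transport (A : H →L[ℂ] H) (N : K →L[ℂ] K) (X : H →L[ℂ] K) (Y : K →L[ℂ] H)
    (hX : Function.Injective X) (hY : DenseRange Y)
    (hXA : ∀ x, X (A x) = N (X x)) (hAY : ∀ y, A (Y y) = Y (N y))
    (hred : ∀ M : Submodule ℂ H, IsClosed (M : Set H) → (∀ x ∈ M, A x ∈ M) →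
      ∀ x ∈ M, adjoint A x ∈ M)
    (E : K →L[ℂ] K) (hE : ∀ y, E (E y) = E y)
    (hc : ∀ S : K →L[ℂ] K, (∀ y, S (N y) = N (S y)) → ∀ y, S (E y) = E (S y)) :
    ∃ P : H →L[ℂ] H, IsSelfAdjoint P ∧ ‖P‖ ≤ 1 ∧ ∀ x, X (P x) = E (X x) := by
  have hEN : ∀ y, N (E y) = E (N y) := hc N (fun _ => rfl)
  set M : Submodule ℂ H := (LinearMap.range (Y ∘L E : K →L[ℂ] H).toLinearMap).topologicalClosure
    with hM
  set M' : Submodule ℂ H :=
    (LinearMap.range (Y ∘L (1 - E) : K →L[ℂ] H).toLinearMap).topologicalClosure with hM'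
  have hMc : IsClosed (M : Set H) := Submodule.isClosed_topologicalClosure _
  have hMc' : IsClosed (M' : Set H) := Submodule.isClosed_topologicalClosure _
  have : CompleteSpace M := hMc.completeSpace_coe
  have : CompleteSpace M' := hMc'.completeSpace_coe
  have mem1 : ∀ k, Y (E k) ∈ M := fun k =>
    Submodule.le_topologicalClosure _ ⟨k, rfl⟩
  have mem2 : ∀ k, Y (k - E k) ∈ M' := fun k =>
    Submodule.le_topologicalClosure _ ⟨k, rfl⟩
  -- induction principle for the closures
  have ind1 : ∀ C : Set H, IsClosed C → (∀ k, Y (E k) ∈ C) → ∀ x ∈ M, x ∈ C := by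
    intro C hC h x hx
    have : closure (Set.range fun k => Y (E k)) ⊆ C := by
      apply closure_minimal _ hC
      rintro _ ⟨k, rfl⟩
      exact h k
    apply this
    have e : (M : Set H) = closure (Set.range fun k => Y (E k)) := by
      rw [hM, Submodule.topologicalClosure_coe]
      congr 1
    rw [← e]
    exact hx
  have ind2 : ∀ C : Set H, IsClosed C → (∀ k, Y (k - E k) ∈ C) → ∀ x ∈ M', x ∈ C := by
    intro C hC h x hx
    have : closure (Set.range fun k => Y (k - E k)) ⊆ C := by
      apply closure_minimal _ hC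
      rintro _ ⟨k, rfl⟩
      exact h k
    apply this
    have e : (M' : Set H) = closure (Set.range fun k => Y (k - E k)) := by
      rw [hM', Submodule.topologicalClosure_coe]
      congr 1
    rw [← e]
    exact hx
  have inv1 : ∀ x ∈ M, A x ∈ M := by
    apply ind1 {x | A x ∈ M} (hMc.preimage A.continuous)
    intro k
    show A (Y (E k)) ∈ M
    rw [hAY, hEN]
    exact mem1 _
  have inv2 : ∀ x ∈ M', A x ∈ M' := by
    apply ind2 {x | A x ∈ M'} (hMc'.preimage A.continuous)
    intro k
    show A (Y (k - E k)) ∈ M'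
    rw [hAY, map_sub, hEN]
    exact mem2 _
  have com2 := proj_comm A M' inv2 (hred M' hMc' inv2)
  -- `X P' Y` commutes with `N`, hence with `E`
  have c1 : ∀ k, X (M'.starProjection (Y (E k))) = E (X (M'.starProjection (Y k))) := by
    apply hc (X ∘L M'.starProjection ∘L Y)
    intro y
    simp only [ContinuousLinearMap.comp_apply]
    rw [← hAY, ← com2, hXA]
  have c2 : ∀ k, X (Y (E k)) = E (X (Y k)) := by
    apply hc (X ∘L Y)
    intro y
    simp only [ContinuousLinearMap.comp_apply]
    rw [← hAY, hXA]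
  have d1 : ∀ m ∈ M, E (X (M'.starProjection m)) = X (M'.starProjection m) := by
    apply ind1 {m | E (X (M'.starProjection m)) = X (M'.starProjection m)}
    · exact isClosed_eq (by fun_prop) (by fun_prop)
    · intro k
      show E (X (M'.starProjection (Y (E k)))) = X (M'.starProjection (Y (E k)))
      rw [← c1, hE]
  have d2 : ∀ m ∈ M', E (X m) = 0 := by
    apply ind2 {m | E (X m) = 0}
    · exact isClosed_eq (by fun_prop) (by fun_prop)
    · intro k
      show E (X (Y (k - E k))) = 0
      rw [← c2, map_sub, hE, sub_self, map_zero, map_zero]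
  have d3 : ∀ m ∈ M, M'.starProjection m = 0 := by
    intro m hm
    apply hX
    rw [← d1 m hm, d2 _ (M'.starProjection_apply_mem m), map_zero]
  have d4 : ∀ m ∈ M', M.starProjection m = 0 := by
    intro m hm
    rw [Submodule.starProjection_apply_eq_zero_iff, Submodule.mem_orthogonal]
    intro u hu
    have := (Submodule.starProjection_apply_eq_zero_iff M').1 (d3 u hu)
    exact (Submodule.mem_orthogonal' M' u).1 this m hm
  refine ⟨M.starProjection, ?_, ?_, ?_⟩
  · exact isSelfAdjoint_starProjection M
  · exact Submodule.starProjection_norm_le M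
  · have : ∀ x, x ∈ {x | X (M.starProjection x) = E (X x)} := by
      intro x
      apply hY.induction_on (p := fun x => x ∈ {x | X (M.starProjection x) = E (X x)}) x
      · exact isClosed_eq (by fun_prop) (by fun_prop)
      · intro k
        show X (M.starProjection (Y k)) = E (X (Y k))
        have e : Y k = Y (E k) + Y (k - E k) := by rw [← map_add]; congr 1; abel
        rw [← c2]
        conv_lhs => rw [e]
        rw [map_add, d4 _ (mem2 k), add_zero, (Submodule.starProjection_eq_self_iff).2 (mem1 k)]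
    exact this

/-- One dyadic step: `R = E / 2 + R' / 2` with a projection `E`, and `0 ≤ R' ≤ 1`. -/
theorem step (N R : K →L[ℂ] K) (h0 : 0 ≤ R) (h1 : R ≤ 1)
    (hc : ∀ S, Commute S N → Commute S R) :
    ∃ R' E : K →L[ℂ] K, (0 ≤ R' ∧ R' ≤ 1 ∧ ∀ S, Commute S N → Commute S R') ∧
      (E * E = E ∧ ∀ S, Commute S N → Commute S E) ∧
      R = (1 / 2 : ℂ) • E + (1 / 2 : ℂ) • R' := by
  set a : K →L[ℂ] K := R - (1 / 2 : ℂ) • 1 with ha
  have hRsa : IsSelfAdjoint R := IsSelfAdjoint.of_nonneg h0
  have hasa : IsSelfAdjoint a := by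
    rw [ha]
    apply hRsa.sub
    rw [IsSelfAdjoint, star_smul, star_one]
    norm_num
  set G := a⁺ with hG
  set L := a⁻ with hL
  have e1 : G - L = a := CFC.posPart_sub_negPart a hasa
  have e2 : G * L = 0 := CFC.posPart_mul_negPart a
  have g0 : 0 ≤ G := CFC.posPart_nonneg a
  have l0 : 0 ≤ L := CFC.negPart_nonneg a
  have gsa : star G = G := (IsSelfAdjoint.of_nonneg g0).star_eq
  have lsa : star L = L := (IsSelfAdjoint.of_nonneg l0).star_eq
  have hcG : ∀ S, Commute S R → Commute S G := by
    intro S hS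
    have : Commute a S := by
      rw [ha]
      exact (hS.symm.sub_left ((Commute.one_left S).smul_left _))
    exact (this.cfcₙ_real _).symm
  set Z : Submodule ℂ K := LinearMap.ker G.toLinearMap with hZ
  have hZc : IsClosed (Z : Set K) := G.isClosed_ker
  have : CompleteSpace Z := hZc.completeSpace_coe
  set F : K →L[ℂ] K := Z.starProjection with hF
  have fsa : star F = F := (isSelfAdjoint_starProjection Z).star_eq
  have gf : G * F = 0 := by
    ext x
    exact Z.starProjection_apply_mem x
  have fg : F * G = 0 := by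
    have := congrArg star gf
    rwa [star_mul, fsa, gsa, star_zero] at this
  have fl : F * L = L := by
    ext x
    have : L x ∈ Z := by
      show G (L x) = 0
      have := congrArg (fun T : K →L[ℂ] K => T x) e2
      exact this
    exact (Submodule.starProjection_eq_self_iff).2 this
  have lf : L * F = L := by
    have := congrArg star fl
    rwa [star_mul, fsa, lsa] at this
  have ff : F * F = F := by
    ext x
    exact (Submodule.starProjection_eq_self_iff).2 (Z.starProjection_apply_mem x)
  have hcF : ∀ S, Commute S N → Commute S F := by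
    intro S hS
    have k1 : Commute S G := hcG S (hc S hS)
    have k2 : Commute (star S) G := by
      have := congrArg star k1.eq
      rw [star_mul, star_mul, gsa] at this
      exact this.symm
    show S * F = F * S
    ext x
    apply proj_comm S Z
    · intro x hx
      show G (S x) = 0
      have := congrArg (fun T : K →L[ℂ] K => T x) k1.eq
      simp only [mul_apply_eq_comp] at this
      rw [← this]
      have hx' : G x = 0 := hx
      rw [hx', map_zero]
    · intro x hx
      show G (star S x) = 0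
      have := congrArg (fun T : K →L[ℂ] K => T x) k2.eq
      simp only [mul_apply_eq_comp] at this
      rw [← this]
      have hx' : G x = 0 := hx
      rw [hx', map_zero]
  have hR : R = (1 / 2 : ℂ) • 1 + G - L := by rw [add_sub_assoc, e1, ha]; abel
  have c1 : 0 ≤ (1 / 2 : ℂ) • F - L := by
    have := star_left_conjugate_nonneg h0 F
    rw [fsa, hR] at this
    convert this using 1
    simp only [mul_sub, mul_add, sub_mul, add_mul, mul_smul_comm, smul_mul_assoc, mul_one, ff, fl,
      lf, fg, zero_mul, add_zero]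
  set E : K →L[ℂ] K := 1 - F with hE
  have esa : star E = E := by rw [hE, star_sub, star_one, fsa]
  have ee : E * E = E := by
    rw [hE, mul_sub, mul_one, sub_mul, one_mul, ff, sub_self, sub_zero]
  have ge : G * E = G := by rw [hE, mul_sub, mul_one, gf, sub_zero]
  have eg : E * G = G := by rw [hE, sub_mul, one_mul, fg, sub_zero]
  have le : L * E = 0 := by rw [hE, mul_sub, mul_one, lf, sub_self]
  have c2 : 0 ≤ (1 / 2 : ℂ) • E - G := by
    have := star_left_conjugate_nonneg (sub_nonneg.2 h1) E
    rw [esa, hR] at this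
    have h2 : (1 : K →L[ℂ] K) - ((1 / 2 : ℂ) • 1 + G - L) = (1 / 2 : ℂ) • 1 - G + L := by
      have : (1 : K →L[ℂ] K) = (1 / 2 : ℂ) • 1 + (1 / 2 : ℂ) • 1 := by
        rw [← add_smul]; norm_num
      nth_rw 1 [this]
      abel
    rw [h2] at this
    convert this using 1
    simp only [mul_sub, mul_add, sub_mul, add_mul, mul_smul_comm, smul_mul_assoc, mul_one, ee, eg,
      ge]
    rw [mul_assoc, le, mul_zero, add_zero]
  have two : (2 : ℂ) • R - E = (2 : ℂ) • ((1 / 2 : ℂ) • F - L) + (2 : ℂ) • G := by
    rw [hR, hE]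
    simp only [smul_sub, smul_add, smul_smul]
    norm_num
    abel
  have two' : 1 - ((2 : ℂ) • R - E) = (2 : ℂ) • ((1 / 2 : ℂ) • E - G) + (2 : ℂ) • L := by
    rw [hR, hE]
    simp only [smul_sub, smul_add, smul_smul]
    norm_num
    abel
  have pos2 : ∀ T : K →L[ℂ] K, 0 ≤ T → 0 ≤ (2 : ℂ) • T := by
    intro T hT
    rw [two_smul]
    exact add_nonneg hT hT
  refine ⟨(2 : ℂ) • R - E, E, ⟨?_, ?_, ?_⟩, ⟨ee, ?_⟩, ?_⟩
  · rw [two]
    exact add_nonneg (pos2 _ c1) (pos2 _ g0)
  · rw [← sub_nonneg, two']
    exact add_nonneg (pos2 _ c2) (pos2 _ l0)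
  · intro S hS
    exact ((hc S hS).smul_right _).sub_right ((Commute.one_right S).sub_right (hcF S hS))
  · intro S hS
    exact (Commute.one_right S).sub_right (hcF S hS)
  · simp only [smul_sub, smul_smul]
    norm_num

/-- The positive contractions in the bicommutant of `N` can be transported, if the projections in the
bicommutant can. -/
theorem transport_contraction (N : K →L[ℂ] K) (X : H →L[ℂ] K)
    (htr : ∀ E : K →L[ℂ] K, E * E = E → (∀ S, Commute S N → Commute S E) →
      ∃ P : H →L[ℂ] H, IsSelfAdjoint P ∧ ‖P‖ ≤ 1 ∧ ∀ x, X (P x) = E (X x))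
    (R : K →L[ℂ] K) (h0 : 0 ≤ R) (h1 : R ≤ 1) (hc : ∀ S, Commute S N → Commute S R) :
    ∃ Q : H →L[ℂ] H, IsSelfAdjoint Q ∧ ∀ x, X (Q x) = R (X x) := by
  classical
  let good : (K →L[ℂ] K) → Prop := fun R => 0 ≤ R ∧ R ≤ 1 ∧ ∀ S, Commute S N → Commute S R
  have hstep : ∀ R : {R // good R}, ∃ R' : {R // good R}, ∃ E : K →L[ℂ] K,
      (E * E = E ∧ ∀ S, Commute S N → Commute S E) ∧
      (R : K →L[ℂ] K) = (1 / 2 : ℂ) • E + (1 / 2 : ℂ) • (R' : K →L[ℂ] K) := by
    rintro ⟨R, hR⟩
    obtain ⟨R', E, h, h', h''⟩ := step N R hR.1 hR.2.1 hR.2.2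
    exact ⟨⟨R', h⟩, E, h', h''⟩
  choose f E hE hf using hstep
  let s : ℕ → {R // good R} := fun n => f^[n] ⟨R, h0, h1, hc⟩
  have hs : ∀ n, ((s n : {R // good R}) : K →L[ℂ] K) =
      (1 / 2 : ℂ) • E (s n) + (1 / 2 : ℂ) • (s (n + 1) : K →L[ℂ] K) := by
    intro n
    have : s (n + 1) = f (s n) := Function.iterate_succ_apply' f n _
    rw [this]
    exact hf (s n)
  have hsum : ∀ n, R = (∑ m ∈ Finset.range n, (1 / 2 : ℂ) ^ (m + 1) • E (s m)) +
      (1 / 2 : ℂ) ^ n • (s n : K →L[ℂ] K) := by
    intro n
    induction n with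
    | zero => simp [s]
    | succ n ih =>
      rw [Finset.sum_range_succ, add_assoc]
      conv_lhs => rw [ih, hs n, smul_add, smul_smul, smul_smul, ← pow_succ]
  choose P hP using fun n => htr (E (s n)) (hE (s n)).1 (hE (s n)).2
  have hsm : Summable fun m => (1 / 2 : ℂ) ^ (m + 1) • P m := by
    apply Summable.of_norm_bounded (g := fun m => (1 / 2 : ℝ) ^ (m + 1))
    · exact (summable_nat_add_iff 1).2 (summable_geometric_of_lt_one (by norm_num) (by norm_num))
    · intro m
      rw [norm_smul, norm_pow]
      have : ‖(1 / 2 : ℂ)‖ = 1 / 2 := by norm_num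
      rw [this]
      have := (hP m).2.1
      have h2 : (0 : ℝ) ≤ (1 / 2) ^ (m + 1) := by positivity
      nlinarith
  refine ⟨∑' m, (1 / 2 : ℂ) ^ (m + 1) • P m, ?_, ?_⟩
  · rw [IsSelfAdjoint, tsum_star]
    congr 1
    ext1 m
    rw [star_smul, (hP m).1.star_eq]
    congr 1
    rw [star_pow]
    congr 1
    norm_num
  · intro x
    have t1 : Filter.Tendsto (fun n => X ((∑ m ∈ Finset.range n, (1 / 2 : ℂ) ^ (m + 1) • P m) x))
        Filter.atTop (nhds (X ((∑' m, (1 / 2 : ℂ) ^ (m + 1) • P m) x))) := by
      have := hsm.hasSum.tendsto_sum_nat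
      have h3 : Continuous fun T : H →L[ℂ] H => X (T x) := by fun_prop
      exact (h3.tendsto _).comp this
    have t2 : Filter.Tendsto (fun n => X ((∑ m ∈ Finset.range n, (1 / 2 : ℂ) ^ (m + 1) • P m) x))
        Filter.atTop (nhds (R (X x))) := by
      have e : ∀ n, X ((∑ m ∈ Finset.range n, (1 / 2 : ℂ) ^ (m + 1) • P m) x) =
          R (X x) - (1 / 2 : ℂ) ^ n • (s n : K →L[ℂ] K) (X x) := by
        intro n
        rw [eq_sub_iff_add_eq]
        conv_rhs => rw [hsum n]
        simp only [ContinuousLinearMap.sum_apply, ContinuousLinearMap.add_apply,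
          ContinuousLinearMap.smul_apply, map_sum, map_smul]
        congr 1
        apply Finset.sum_congr rfl
        intro m _
        rw [(hP m).2.2]
      simp only [e]
      have z : Filter.Tendsto (fun n : ℕ => (1 / 2 : ℂ) ^ n • (s n : K →L[ℂ] K) (X x))
          Filter.atTop (nhds 0) := by
        apply squeeze_zero_norm (a := fun n : ℕ => (1 / 2 : ℝ) ^ n * ‖X x‖)
        · intro n
          rw [norm_smul, norm_pow]
          have : ‖(1 / 2 : ℂ)‖ = 1 / 2 := by norm_num
          rw [this]
          apply mul_le_mul_of_nonneg_left _ (by positivity)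
          have hn : ‖(s n : K →L[ℂ] K)‖ ≤ 1 :=
            (CStarAlgebra.norm_le_one_iff_of_nonneg _ (s n).2.1).2 (s n).2.2.1
          calc _ ≤ ‖(s n : K →L[ℂ] K)‖ * ‖X x‖ := ContinuousLinearMap.le_opNorm _ _
            _ ≤ 1 * ‖X x‖ := mul_le_mul_of_nonneg_right hn (norm_nonneg _)
            _ = _ := one_mul _
        · have := (tendsto_pow_atTop_nhds_zero_of_lt_one (r := (1 / 2 : ℝ)) (by norm_num)
            (by norm_num)).mul_const ‖X x‖
          simpa using this
      simpa using (tendsto_const_nhds (x := R (X x))).sub z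
    exact tendsto_nhds_unique t1 t2

end H109R
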