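import Pool.Agent.H109R.Base

set_option autoImplicit false

open ContinuousLinearMap InnerProductSpace
open scoped ComplexOrder ComplexStarModule

namespace H109R

variable {H : Type*} [NormedAddCommGroup H] [InnerProductSpace ℂ H] [CompleteSpace H]
variable {K : Type*} [NormedAddCommGroup K] [InnerProductSpace ℂ K] [CompleteSpace K]

omit [CompleteSpace K] in
theorem smul_nonneg' (c : ℝ) (hc : 0 ≤ c) (T : K →L[ℂ] K) (hT : 0 ≤ T) : 0 ≤ (c : ℂ) • T := by
  rw [nonneg_iff_isPositive] at *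
  exact hT.smul_of_nonneg (by exact_mod_cast hc)

/-- Self-adjoint operators in the bicommutant can be transported. -/
theorem transport_selfAdjoint (N : K →L[ℂ] K) (X : H →L[ℂ] K)
    (htr : ∀ E : K →L[ℂ] K, E * E = E → (∀ S, Commute S N → Commute S E) →
      ∃ P : H →L[ℂ] H, IsSelfAdjoint P ∧ ‖P‖ ≤ 1 ∧ ∀ x, X (P x) = E (X x))
    (R : K →L[ℂ] K) (hR : IsSelfAdjoint R) (hc : ∀ S, Commute S N → Commute S R) :
    ∃ Q : H →L[ℂ] H, IsSelfAdjoint Q ∧ ∀ x, X (Q x) = R (X x) := by
  set r : ℝ := ‖R‖ + 1 with hr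
  have rpos : 0 < r := by positivity
  have b1 : 0 ≤ R + (r : ℂ) • 1 := by
    have h1 := hR.neg_algebraMap_norm_le_self
    have e : (r : ℂ) • (1 : K →L[ℂ] K) = algebraMap ℝ (K →L[ℂ] K) ‖R‖ + 1 := by
      ext x
      simp [hr, add_smul, Algebra.algebraMap_eq_smul_one]
    rw [e]
    have h2 : 0 ≤ R + algebraMap ℝ (K →L[ℂ] K) ‖R‖ := by
      rw [← sub_nonneg] at h1
      simpa [sub_neg_eq_add] using h1
    rw [← add_assoc]
    exact add_nonneg h2 zero_le_one
  have b2 : 0 ≤ (r : ℂ) • 1 - R := by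
    have h1 := hR.le_algebraMap_norm_self
    have e : (r : ℂ) • (1 : K →L[ℂ] K) = algebraMap ℝ (K →L[ℂ] K) ‖R‖ + 1 := by
      ext x
      simp [hr, add_smul, Algebra.algebraMap_eq_smul_one]
    rw [e]
    have h2 : 0 ≤ algebraMap ℝ (K →L[ℂ] K) ‖R‖ - R := sub_nonneg.2 h1
    have : algebraMap ℝ (K →L[ℂ] K) ‖R‖ + 1 - R = (algebraMap ℝ (K →L[ℂ] K) ‖R‖ - R) + 1 := by abel
    rw [this]
    exact add_nonneg h2 zero_le_one
  have rc : (r : ℂ) ≠ 0 := by exact_mod_cast rpos.ne'
  set c : ℝ := 1 / (2 * r) with hcdef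
  have cpos : 0 ≤ c := by positivity
  have hcr : (c : ℂ) * r = 1 / 2 := by
    rw [hcdef]; push_cast; field_simp
  obtain ⟨Q, hQ, hQX⟩ := transport_contraction N X htr ((c : ℂ) • (R + (r : ℂ) • 1))
    (smul_nonneg' c cpos _ b1)
    (by
      rw [← sub_nonneg]
      have : (1 : K →L[ℂ] K) - (c : ℂ) • (R + (r : ℂ) • 1) = (c : ℂ) • ((r : ℂ) • 1 - R) := by
        simp only [smul_add, smul_sub, smul_smul, hcr]
        have : (1 : K →L[ℂ] K) = (1 / 2 : ℂ) • 1 + (1 / 2 : ℂ) • 1 := by
          rw [← add_smul]; norm_num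
        nth_rw 1 [this]
        abel
      rw [this]
      exact smul_nonneg' c cpos _ b2)
    (fun S hS => ((hc S hS).add_right ((Commute.one_right S).smul_right _)).smul_right _)
  refine ⟨((2 * r : ℝ) : ℂ) • Q - (r : ℂ) • 1, ?_, ?_⟩
  · rw [IsSelfAdjoint, star_sub, star_smul, star_smul, hQ.star_eq, star_one]
    simp
  · intro x
    simp only [sub_apply, smul_apply, map_sub, map_smul, hQX, add_apply, smul_add, smul_smul]
    have e1 : (((2 * r : ℝ) : ℂ) * (c : ℂ)) = 1 := by
      rw [hcdef]; push_cast; field_simp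
    have e2 : (((2 * r : ℝ) : ℂ) * ((c : ℂ) * (r : ℂ))) = r := by
      rw [← mul_assoc, e1, one_mul]
    rw [e2, e1, one_smul]
    change R (X x) + (r : ℂ) • X x - (r : ℂ) • X x = R (X x)
    abel

/-- **Main theorem.** -/
theorem isStarNormal_of_reductive (A : H →L[ℂ] H) (N : K →L[ℂ] K) (hN : IsStarNormal N)
    (X : H →L[ℂ] K) (Y : K →L[ℂ] H) (hX : Function.Injective X) (hY : DenseRange Y)
    (hXA : X ∘L A = N ∘L X) (hAY : A ∘L Y = Y ∘L N)
    (hred : ∀ M : Submodule ℂ H, IsClosed (M : Set H) → (∀ x ∈ M, A x ∈ M) →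
      ∀ x ∈ M, adjoint A x ∈ M) : IsStarNormal A := by
  have hXA' : ∀ x, X (A x) = N (X x) := fun x => congrArg (fun T : H →L[ℂ] K => T x) hXA
  have hAY' : ∀ y, A (Y y) = Y (N y) := fun y => congrArg (fun T : K →L[ℂ] H => T y) hAY
  have htr : ∀ E : K →L[ℂ] K, E * E = E → (∀ S, Commute S N → Commute S E) →
      ∃ P : H →L[ℂ] H, IsSelfAdjoint P ∧ ‖P‖ ≤ 1 ∧ ∀ x, X (P x) = E (X x) := by
    intro E hE hc
    apply transport A N X Y hX hY hXA' hAY' hred E
    · intro y
      exact congrArg (fun T : K →L[ℂ] K => T y) hE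
    · intro S hS y
      have : Commute S N := by
        show S * N = N * S
        ext z
        exact hS z
      exact congrArg (fun T : K →L[ℂ] K => T y) (hc S this).eq
  have hstar : ∀ S : K →L[ℂ] K, Commute S N → Commute S (star N) :=
    fun S hS => hN.commute_star_right hS
  have hre : ∀ S : K →L[ℂ] K, Commute S N → Commute S (ℜ N : K →L[ℂ] K) := by
    intro S hS
    rw [realPart_apply_coe]
    exact ((hS.add_right (hstar S hS)).smul_right _)
  have him : ∀ S : K →L[ℂ] K, Commute S N → Commute S (ℑ N : K →L[ℂ] K) := by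
    intro S hS
    rw [imaginaryPart_apply_coe]
    exact (((hS.sub_right (hstar S hS)).smul_right _).smul_right _)
  obtain ⟨P, hP, hPX⟩ := transport_selfAdjoint N X htr _ (ℜ N).2 hre
  obtain ⟨Q, hQ, hQX⟩ := transport_selfAdjoint N X htr _ (ℑ N).2 him
  have hcomm : Commute (ℜ N : K →L[ℂ] K) (ℑ N : K →L[ℂ] K) := by
    apply him
    exact (hre N (Commute.refl N)).symm
  have hA : A = P + Complex.I • Q := by
    ext x
    apply hX
    simp only [add_apply, smul_apply, map_add, map_smul, hPX, hQX, hXA']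
    have := realPart_add_I_smul_imaginaryPart N
    conv_lhs => rw [← this]
    simp
  have hPQ : Commute P Q := by
    show P * Q = Q * P
    ext x
    apply hX
    simp only [mul_apply_eq_comp, hPX, hQX]
    exact congrArg (fun T : K →L[ℂ] K => T (X x)) hcomm.eq
  constructor
  have hs : star A = P - Complex.I • Q := by
    rw [hA, star_add, star_smul, hP.star_eq, hQ.star_eq]
    simp [sub_eq_add_neg]
  show star A * A = A * star A
  rw [hs, hA]
  have c1 : Commute P (Complex.I • Q) := hPQ.smul_right _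
  exact ((Commute.refl P).sub_left c1.symm).add_right (c1.sub_left (Commute.refl _))

end H109R
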