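import Pool.Agent.H109R.Main

set_option autoImplicit false

open ContinuousLinearMap InnerProductSpace
open scoped ComplexOrder ComplexStarModule

namespace H109R

variable {H : Type*} [NormedAddCommGroup H] [InnerProductSpace ℂ H] [CompleteSpace H]
variable {K : Type*} [NormedAddCommGroup K] [InnerProductSpace ℂ K] [CompleteSpace K]

section ring

variable {R : Type*} [Ring R]

/-- Iterated commutators. -/
theorem offdiag_zero (N Q E : R) (hc : ∀ S, Commute S N → Commute S E) (hNQ : Commute N Q) (j : ℕ) :
    ∀ D : R, E * D = D → D * E = 0 → Commute (N + Q) D →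
      ((fun D => Q * D - D * Q)^[j]) D = 0 → D = 0 := by
  have hQE : Commute Q E := hc Q hNQ.symm
  induction j with
  | zero => intro D _ _ _ h; exact h
  | succ j ih =>
    intro D h1 h2 h3 h4
    rw [Function.iterate_succ_apply] at h4
    have h5 : Q * D - D * Q = 0 := by
      apply ih _ _ _ _ h4
      · rw [mul_sub, ← mul_assoc, ← hQE.eq, mul_assoc, h1, ← mul_assoc, h1]
      · rw [sub_mul, mul_assoc, h2, mul_zero, mul_assoc, hQE.eq, ← mul_assoc, h2, zero_mul, sub_self]
      · have hq : Commute (N + Q) Q := hNQ.add_left (Commute.refl Q)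
        exact (hq.mul_right h3).sub_right (h3.mul_right hq)
    have h6 : Commute D Q := by
      show D * Q = Q * D
      rw [sub_eq_zero] at h5
      exact h5.symm
    have h7 : Commute D N := by
      have : Commute (N + Q - Q) D := h3.sub_left h6.symm
      simpa using this.symm
    have h8 : D * E = E * D := (hc D h7).eq
    rw [h1, h2] at h8
    exact h8.symm

theorem ad_iterate (Q : R) (k : ℕ) (hQ : Q ^ k = 0) :
    ∃ j : ℕ, ∀ D : R, ((fun D => Q * D - D * Q)^[j]) D = 0 := by
  have hn : IsNilpotent Q := ⟨k, hQ⟩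
  have hl : IsNilpotent (LinearMap.mulLeft ℤ Q) := by rwa [LinearMap.isNilpotent_mulLeft_iff]
  have hr : IsNilpotent (LinearMap.mulRight ℤ Q) := by rwa [LinearMap.isNilpotent_mulRight_iff]
  obtain ⟨j, hj⟩ := (LinearMap.commute_mulLeft_right (R := ℤ) Q Q).isNilpotent_sub hl hr
  refine ⟨j, fun D => ?_⟩
  have := congrArg (fun f : Module.End ℤ R => f D) hj
  simp only [Module.End.pow_apply] at this
  exact this

theorem commute_of_nilp (N Q E S : R) (hE : E * E = E) (hc : ∀ S, Commute S N → Commute S E)
    (hNQ : Commute N Q) (k : ℕ) (hQ : Q ^ k = 0) (hS : Commute S (N + Q)) : Commute S E := by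
  obtain ⟨j, hj⟩ := ad_iterate Q k hQ
  have hNE : Commute (N + Q) E := (hc N (Commute.refl N)).add_left (hc Q hNQ.symm)
  have hc' : ∀ S, Commute S N → Commute S (1 - E) := fun S h =>
    (Commute.one_right S).sub_right (hc S h)
  have hE' : (1 - E) * (1 - E) = 1 - E := by
    rw [mul_sub, mul_one, sub_mul, one_mul, hE, sub_self, sub_zero]
  have hEE' : E * (1 - E) = 0 := by rw [mul_sub, mul_one, hE, sub_self]
  have hE'E : (1 - E) * E = 0 := by rw [sub_mul, one_mul, hE, sub_self]
  have hNE' : Commute (N + Q) (1 - E) := (Commute.one_right _).sub_right hNE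
  have d1 : E * S * (1 - E) = 0 := by
    apply offdiag_zero N Q E hc hNQ j _ _ _ _ (hj _)
    · rw [← mul_assoc, ← mul_assoc, hE]
    · rw [mul_assoc, hE'E, mul_zero]
    · exact (hNE.mul_right hS.symm).mul_right hNE'
  have d2 : (1 - E) * S * E = 0 := by
    apply offdiag_zero N Q (1 - E) hc' hNQ j _ _ _ _ (hj _)
    · rw [← mul_assoc, ← mul_assoc, hE']
    · rw [mul_assoc, hEE', mul_zero]
    · exact (hNE'.mul_right hS.symm).mul_right hNE
  show S * E = E * S
  have e1 : E * S = E * S * E := by
    rw [mul_sub, mul_one, sub_eq_zero] at d1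
    exact d1
  have e2 : S * E = E * S * E := by
    rw [sub_mul, sub_mul, one_mul, sub_eq_zero] at d2
    exact d2
  rw [e2, ← e1]

end ring

/-- **Main theorem.** A reductive operator intertwined with a spectral operator of finite type is normal. -/
theorem isStarNormal_of_reductive_nilp (A : H →L[ℂ] H) (N Q : K →L[ℂ] K) (hN : IsStarNormal N)
    (k : ℕ) (hQ : Q ^ k = 0) (hNQ : Commute N Q)
    (X : H →L[ℂ] K) (Y : K →L[ℂ] H) (hX : Function.Injective X) (hY : DenseRange Y)
    (hXA : X ∘L A = (N + Q) ∘L X) (hAY : A ∘L Y = Y ∘L (N + Q))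
    (hred : ∀ M : Submodule ℂ H, IsClosed (M : Set H) → (∀ x ∈ M, A x ∈ M) →
      ∀ x ∈ M, adjoint A x ∈ M) : IsStarNormal A := by
  have hXA' : ∀ x, X (A x) = (N + Q) (X x) := fun x => congrArg (fun T : H →L[ℂ] K => T x) hXA
  have hAY' : ∀ y, A (Y y) = Y ((N + Q) y) := fun y => congrArg (fun T : K →L[ℂ] H => T y) hAY
  have htr : ∀ E : K →L[ℂ] K, E * E = E → (∀ S, Commute S N → Commute S E) →
      ∃ P : H →L[ℂ] H, IsSelfAdjoint P ∧ ‖P‖ ≤ 1 ∧ ∀ x, X (P x) = E (X x) := by
    intro E hE hc
    apply transport A (N + Q) X Y hX hY hXA' hAY' hred E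
    · intro y
      exact congrArg (fun T : K →L[ℂ] K => T y) hE
    · intro S hS y
      have : Commute S (N + Q) := by
        show S * (N + Q) = (N + Q) * S
        ext z
        exact hS z
      exact congrArg (fun T : K →L[ℂ] K => T y) (commute_of_nilp N Q E S hE hc hNQ k hQ this).eq
  have hstar : ∀ S : K →L[ℂ] K, Commute S N → Commute S (star N) :=
    fun S hS => hN.commute_star_right hS
  have hre : ∀ S : K →L[ℂ] K, Commute S N → Commute S (ℜ N : K →L[ℂ] K) := by
    intro S hS
    rw [realPart_apply_coe]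
    exact ((hS.add_right (hstar S hS)).smul_right _)
  have him : ∀ S : K →L[ℂ] K, Commute S N → Commute S (ℑ N : K →L[ℂ] K) := by
    intro S hS
    rw [imaginaryPart_apply_coe]
    exact (((hS.sub_right (hstar S hS)).smul_right _).smul_right _)
  obtain ⟨P, hP, hPX⟩ := transport_selfAdjoint N X htr _ (ℜ N).2 hre
  obtain ⟨J, hJ, hJX⟩ := transport_selfAdjoint N X htr _ (ℑ N).2 him
  have hcomm : Commute (ℜ N : K →L[ℂ] K) (ℑ N : K →L[ℂ] K) := by
    apply him
    exact (hre N (Commute.refl N)).symm
  have hPJ : Commute P J := by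
    show P * J = J * P
    ext x
    apply hX
    simp only [mul_apply_eq_comp, hPX, hJX]
    exact congrArg (fun T : K →L[ℂ] K => T (X x)) hcomm.eq
  set N' : H →L[ℂ] H := P + Complex.I • J with hN'
  have hN'X : ∀ x, X (N' x) = N (X x) := by
    intro x
    simp only [hN', add_apply, smul_apply, map_add, map_smul, hPX, hJX]
    have := realPart_add_I_smul_imaginaryPart N
    conv_rhs => rw [← this]
    simp
  have hs : star N' = P - Complex.I • J := by
    rw [hN', star_add, star_smul, hP.star_eq, hJ.star_eq]
    simp [sub_eq_add_neg]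
  have hN'n : IsStarNormal N' := by
    constructor
    show star N' * N' = N' * star N'
    rw [hs, hN']
    have c1 : Commute P (Complex.I • J) := hPJ.smul_right _
    exact ((Commute.refl P).sub_left c1.symm).add_right (c1.sub_left (Commute.refl _))
  set Q' : H →L[ℂ] H := A - N' with hQ'
  have hQ'X : ∀ x, X (Q' x) = Q (X x) := by
    intro x
    simp only [hQ', sub_apply, map_sub, hXA', hN'X, add_apply]
    abel
  have hQ'pow : ∀ n : ℕ, ∀ x, X ((Q' ^ n) x) = (Q ^ n) (X x) := by
    intro n
    induction n with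
    | zero => intro x; rfl
    | succ n ih =>
      intro x
      rw [pow_succ, pow_succ]
      simp only [mul_apply_eq_comp]
      rw [ih, hQ'X]
  have hnil : Q' ^ k = 0 := by
    ext x
    apply hX
    rw [hQ'pow, hQ]
    simp
  have hcA : Commute N' A := by
    show N' * A = A * N'
    ext x
    apply hX
    simp only [mul_apply_eq_comp, hN'X, hXA']
    have : Commute N (N + Q) := (Commute.refl N).add_right hNQ
    exact congrArg (fun T : K →L[ℂ] K => T (X x)) this.eq
  have hcQ : Commute N' Q' := hcA.sub_right (Commute.refl _)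
  have hcQ2 : Commute (star N') Q' := hN'n.commute_star_left hcQ
  have hAQ : Commute A Q' := (Commute.refl A).sub_right hcA.symm
  -- the closure of the range of `Q'`
  set M : Submodule ℂ H := (LinearMap.range Q'.toLinearMap).topologicalClosure with hM
  have hMc : IsClosed (M : Set H) := Submodule.isClosed_topologicalClosure _
  have : CompleteSpace M := hMc.completeSpace_coe
  have mem1 : ∀ x, Q' x ∈ M := fun x => Submodule.le_topologicalClosure _ ⟨x, rfl⟩
  have ind : ∀ C : Set H, IsClosed C → (∀ x, Q' x ∈ C) → ∀ x ∈ M, x ∈ C := by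
    intro C hC h x hx
    have h2 : closure (Set.range fun x => Q' x) ⊆ C := by
      apply closure_minimal _ hC
      rintro _ ⟨y, rfl⟩
      exact h y
    apply h2
    have e : (M : Set H) = closure (Set.range fun x => Q' x) := by
      rw [hM, Submodule.topologicalClosure_coe]
      congr 1
    rw [← e]
    exact hx
  have inv : ∀ S : H →L[ℂ] H, Commute S Q' → ∀ x ∈ M, S x ∈ M := by
    intro S hS
    apply ind {x | S x ∈ M} (hMc.preimage S.continuous)
    intro x
    show S (Q' x) ∈ M
    have : S (Q' x) = Q' (S x) := congrArg (fun T : H →L[ℂ] H => T x) hS.eq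
    rw [this]
    exact mem1 _
  have pA := proj_comm A M (inv A hAQ) (hred M hMc (inv A hAQ))
  have pN := proj_comm N' M (inv N' hcQ) (inv (star N') hcQ2)
  have pQ : ∀ x, Q' (M.starProjection x) = Q' x := by
    intro x
    have h1 : Q' (M.starProjection x) = M.starProjection (Q' x) := by
      simp only [hQ', sub_apply, map_sub, pA, pN]
    rw [h1]
    exact (Submodule.starProjection_eq_self_iff).2 (mem1 x)
  have descend : ∀ n : ℕ, Q' ^ (n + 1) = 0 → Q' = 0 := by
    intro n
    induction n with
    | zero => intro h; simpa using h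
    | succ n ih =>
      intro h
      apply ih
      have hz : ∀ m ∈ M, (Q' ^ (n + 1)) m = 0 := by
        apply ind {m | (Q' ^ (n + 1)) m = 0} (isClosed_eq (by fun_prop) (by fun_prop))
        intro x
        show (Q' ^ (n + 1)) (Q' x) = 0
        have := congrArg (fun T : H →L[ℂ] H => T x) h
        rw [pow_succ] at this
        exact this
      ext x
      have h2 : (Q' ^ (n + 1)) x = (Q' ^ n) (Q' x) := by
        rw [pow_succ]; rfl
      rw [h2, ← pQ x]
      have h3 : (Q' ^ (n + 1)) (M.starProjection x) = (Q' ^ n) (Q' (M.starProjection x)) := by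
        rw [pow_succ]; rfl
      rw [← h3, hz _ (M.starProjection_apply_mem x)]
      simp
  have hQ0 : Q' = 0 := by
    apply descend k
    rw [pow_succ, hnil, zero_mul]
  have : A = N' := by
    rw [hQ', sub_eq_zero] at hQ0
    exact hQ0
  rw [this]
  exact hN'n

end H109R
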